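import Mathlib
import Pool.Agent.SqNormal.Lindelof

/-!
# Locally compact metalindelöf spaces with a normal square are paracompact
-/

set_option autoImplicit false

open Cardinal

universe u

namespace Pool.Agent.Results.MP_4820d4_gt.NormalSquare

/-- Part 1. Let `X` be a locally compact Hausdorff space such that every open cover has a
point-countable open refinement. The following are equivalent: `X` is paracompact; `X × X` is
normal; every open neighbourhood of the diagonal of `X × X` contains the closure of an open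
neighbourhood of the diagonal; `X` is the disjoint union of clopen `σ`-compact sets.

Part 2. Let `κ` be an infinite cardinal and `X` a locally compact Hausdorff space such that every
open cover has an open refinement with every point in at most `κ` members, and such that every
open neighbourhood of the diagonal contains the closure of an open neighbourhood of the diagonal.
Then `X` is the disjoint union of clopen sets, each of which is the union of at most `κ` compact
sets. -/
theorem result :
    (∀ (X : Type u) [TopologicalSpace X] [T2Space X] [LocallyCompactSpace X],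
      (∀ U : Set (Set X), (∀ u ∈ U, IsOpen u) → ⋃₀ U = Set.univ →
        ∃ V : Set (Set X), (∀ v ∈ V, IsOpen v) ∧ ⋃₀ V = Set.univ ∧
          (∀ v ∈ V, ∃ u ∈ U, v ⊆ u) ∧ ∀ x : X, {v | v ∈ V ∧ x ∈ v}.Countable) →
      List.TFAE [
        ParacompactSpace X,
        NormalSpace (X × X),
        ∀ N : Set (X × X), IsOpen N → Set.diagonal X ⊆ N →
          ∃ O : Set (X × X), IsOpen O ∧ Set.diagonal X ⊆ O ∧ closure O ⊆ N,
        ∃ C : Set (Set X), (∀ c ∈ C, IsClopen c ∧ IsSigmaCompact c) ∧ C.PairwiseDisjoint id ∧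
          ⋃₀ C = Set.univ]) ∧
    ∀ (κ : Cardinal.{u}) (X : Type u) [TopologicalSpace X] [T2Space X] [LocallyCompactSpace X],
      ℵ₀ ≤ κ →
      (∀ U : Set (Set X), (∀ u ∈ U, IsOpen u) → ⋃₀ U = Set.univ →
        ∃ V : Set (Set X), (∀ v ∈ V, IsOpen v) ∧ ⋃₀ V = Set.univ ∧
          (∀ v ∈ V, ∃ u ∈ U, v ⊆ u) ∧ ∀ x : X, #{v | v ∈ V ∧ x ∈ v} ≤ κ) →
      (∀ N : Set (X × X), IsOpen N → Set.diagonal X ⊆ N →
        ∃ O : Set (X × X), IsOpen O ∧ Set.diagonal X ⊆ O ∧ closure O ⊆ N) →
      ∃ C : Set (Set X), (∀ c ∈ C, IsClopen c ∧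
          ∃ S : Set (Set X), #S ≤ κ ∧ (∀ s ∈ S, IsCompact s) ∧ ⋃₀ S = c) ∧
        C.PairwiseDisjoint id ∧ ⋃₀ C = Set.univ := by
  refine ⟨?_, fun κ X _ _ _ hκ hm hd => SqNormal.Lind.decK_of_diagonalNormal hκ hm hd⟩
  intro X _ _ _ hm
  have hm' : SqNormal.Lind.MetaK ℵ₀ X := by
    intro U hU hc
    obtain ⟨V, h1, h2, h3, h4⟩ := hm U hU hc
    exact ⟨V, h1, h2, h3, fun x => le_aleph0_iff_set_countable.mpr (h4 x)⟩
  obtain ⟨h1, h2, h3⟩ := SqNormal.Lind.main X hm'
  tfae_have 1 ↔ 2 := h1
  tfae_have 1 ↔ 3 := h2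
  tfae_have 3 → 4 := h3
  tfae_have 4 → 1 := fun h => SqNormal.paracompact_of_dec h
  tfae_finish

end Pool.Agent.Results.MP_4820d4_gt.NormalSquare
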